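import Pool.Agent.W586.SK.Stm2

set_option autoImplicit false

open MeasureTheory Set
open scoped ENNReal InnerProductSpace

namespace Pool.Agent.W865.SX

abbrev E0 (n : ℕ) := EuclideanSpace ℝ (Fin n)

theorem four_pow_exp (k : ℕ) : (4:ℝ) ^ k * Real.exp (-(2 ^ k)) ≤ 6 * (1 / 2) ^ k := by
  set m : ℝ := 2 ^ k with hm
  have hm1 : 1 ≤ m := one_le_pow₀ (by norm_num)
  have h4 : (4:ℝ) ^ k = m ^ 2 := by rw [hm, ← pow_mul, mul_comm, pow_mul]; norm_num
  have h2 : ((1:ℝ) / 2) ^ k = 1 / m := by rw [hm, div_pow, one_pow]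
  have h3 : m ^ 3 / 6 ≤ Real.exp m := by
    have := Real.pow_div_factorial_le_exp m (by linarith) 3
    norm_num [Nat.factorial] at this
    exact this
  rw [h4, h2, Real.exp_neg]
  have he : 0 < Real.exp m := Real.exp_pos _
  have hm0 : 0 < m := by linarith
  rw [← div_eq_mul_inv, ← mul_div_assoc, mul_one, div_le_div_iff₀ he hm0]
  nlinarith

theorem multi0 {n : ℕ} (μ : Measure (E0 n)) [IsProbabilityMeasure μ]
    (hR : ∃ R, μ (Metric.closedBall 0 R)ᶜ = 0) (A : ℝ → Set (E0 n))
    (hAm : ∀ t, MeasurableSet (A t)) (hA : ∀ t t', t ≤ t' → A t ⊆ A t')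
    (hT : ∀ t : ℝ, 1 ≤ t → μ (A t)ᶜ ≤ ENNReal.ofReal (Real.exp (-(t / 2)))) (D : ℝ) (hD : 0 < D)
    (hP : ∀ t : ℝ, 4 ≤ t → ∀ h : E0 n → ℝ, ContDiff ℝ 1 h → ∃ c : ℝ,
      ∫ x in A t, (h x - c) ^ 2 ∂μ ≤ D * t ^ 2 * ∫ x in A t, ‖fderiv ℝ h x‖ ^ 2 ∂μ)
    (f : E0 n → ℝ) (hf : ContDiff ℝ 1 f) (hf1 : ∀ x, ‖fderiv ℝ f x‖ ≤ 1) :
    ∫ x, f x ^ 2 ∂μ - (∫ x, f x ∂μ) ^ 2 ≤ 40000 * D := by
  obtain ⟨R, hR⟩ := hR
  have hint : ∀ g : E0 n → ℝ, Continuous g → Integrable g μ := by
    intro g hg
    have h1 : μ.restrict (Metric.closedBall 0 R) = μ :=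
      Measure.restrict_eq_self_of_ae_mem (mem_ae_iff.2 hR)
    rw [← h1]
    exact hg.continuousOn.integrableOn_compact (isCompact_closedBall 0 R)
  have hfc : Continuous f := hf.continuous
  have hdc : Continuous fun x => ‖fderiv ℝ f x‖ ^ 2 :=
    ((hf.continuous_fderiv (by norm_num)).norm).pow 2
  set t : ℕ → ℝ := fun k => 4 * 2 ^ k with ht
  have ht4 : ∀ k, 4 ≤ t k := fun k => by
    have : (1:ℝ) ≤ 2 ^ k := one_le_pow₀ (by norm_num)
    simp only [ht]; linarith
  have hts : ∀ k, t (k + 1) = 2 * t k := fun k => by simp only [ht, pow_succ]; ring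
  set L : ℕ → ℝ := fun k => D * t k ^ 2 with hL
  have hLs : ∀ k, L (k + 1) = 4 * L k := fun k => by simp only [hL, hts]; ring
  have hLpos : ∀ k, 0 < L k := fun k => by
    have := ht4 k
    simp only [hL]; positivity
  -- measure of A
  have hM1 : ∀ k, μ.real (A (t k)) ≤ 1 := fun k => measureReal_le_one
  have hMc : ∀ k, μ.real (A (t k))ᶜ ≤ Real.exp (-(t k / 2)) := fun k => by
    have := hT (t k) (by linarith [ht4 k])
    exact ENNReal.toReal_le_of_le_ofReal (Real.exp_pos _).le this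
  have hM2 : ∀ k, 1 / 2 ≤ μ.real (A (t k)) := fun k => by
    have h1 := hMc k
    have h2 : μ.real (A (t k)) + μ.real (A (t k))ᶜ = 1 := by
      have := measureReal_add_measureReal_compl (μ := μ) (hAm (t k))
      simpa using this
    have h3 : Real.exp (-(t k / 2)) ≤ 1 / 2 := by
      have h4 : t k / 2 + 1 ≤ Real.exp (t k / 2) := Real.add_one_le_exp _
      rw [Real.exp_neg, inv_le_comm₀ (Real.exp_pos _) (by norm_num)]
      have := ht4 k
      linarith
    linarith
  have hP' : ∀ k, ∃ c, ∫ x in A (t k), (f x - c) ^ 2 ∂μ ≤ L k := by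
    intro k
    obtain ⟨c, hc⟩ := hP (t k) (ht4 k) f hf
    refine ⟨c, hc.trans ?_⟩
    have h1 : ∫ x in A (t k), ‖fderiv ℝ f x‖ ^ 2 ∂μ ≤ 1 := by
      calc ∫ x in A (t k), ‖fderiv ℝ f x‖ ^ 2 ∂μ ≤ ∫ x in A (t k), (1:ℝ) ∂μ := by
            apply setIntegral_mono (hint _ hdc).integrableOn (hint _ continuous_const).integrableOn
            intro x
            exact pow_le_one₀ (norm_nonneg _) (hf1 x)
        _ = μ.real (A (t k)) := by simp
        _ ≤ 1 := hM1 k
    have h2 : 0 < D * t k ^ 2 := hLpos k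
    calc D * t k ^ 2 * ∫ x in A (t k), ‖fderiv ℝ f x‖ ^ 2 ∂μ ≤ D * t k ^ 2 * 1 :=
          mul_le_mul_of_nonneg_left h1 h2.le
      _ = L k := by simp [hL]
  choose c hc using hP'
  -- fourth moments
  have h4 : ∀ k, ∫ x in A (t k), (f x - c k) ^ 4 ∂μ ≤ 6 * L k ^ 2 := by
    intro k
    have hgd : ContDiff ℝ 1 fun x => (f x - c k) ^ 2 := (hf.sub contDiff_const).pow 2
    obtain ⟨c', hc'⟩ := hP (t k) (ht4 k) (fun x => (f x - c k) ^ 2) hgd
    have hgc : Continuous fun x => (f x - c k) ^ 2 := hgd.continuous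
    have hder : ∀ x, ‖fderiv ℝ (fun x => (f x - c k) ^ 2) x‖ ^ 2 ≤ 4 * (f x - c k) ^ 2 := by
      intro x
      have h1 : HasFDerivAt f (fderiv ℝ f x) x := (hf.differentiable (by norm_num) x).hasFDerivAt
      have h2 : HasFDerivAt (fun x => (f x - c k) ^ 2) ((2 * (f x - c k)) • fderiv ℝ f x) x := by
        have h0 : HasFDerivAt (fun x => f x - c k) (fderiv ℝ f x) x := h1.sub_const (c k)
        have h3 := h0.fun_mul h0
        have e : (fun x => (f x - c k) ^ 2) = fun x => (f x - c k) * (f x - c k) := by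
          funext y; ring
        rw [e]
        refine h3.congr_fderiv ?_
        ext v
        simp
        ring
      rw [h2.fderiv, norm_smul, mul_pow, Real.norm_eq_abs, sq_abs]
      have h5 : ‖fderiv ℝ f x‖ ^ 2 ≤ 1 := pow_le_one₀ (norm_nonneg _) (hf1 x)
      nlinarith [sq_nonneg (2 * (f x - c k))]
    set I : ℝ := ∫ x in A (t k), (f x - c k) ^ 2 ∂μ with hI
    have hI0 : 0 ≤ I := integral_nonneg fun x => sq_nonneg _
    have hI1 : I ≤ L k := hc k
    have h6 : ∫ x in A (t k), ((f x - c k) ^ 2 - c') ^ 2 ∂μ ≤ 4 * L k ^ 2 := by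
      have h7 : ∫ x in A (t k), ‖fderiv ℝ (fun x => (f x - c k) ^ 2) x‖ ^ 2 ∂μ ≤ 4 * I := by
        rw [hI, ← integral_const_mul]
        apply setIntegral_mono
        · exact (hint _ (((hgd.continuous_fderiv (by norm_num)).norm).pow 2)).integrableOn
        · exact (hint _ (continuous_const.mul hgc)).integrableOn
        · exact hder
      calc _ ≤ D * t k ^ 2 * ∫ x in A (t k), ‖fderiv ℝ (fun x => (f x - c k) ^ 2) x‖ ^ 2 ∂μ := hc'
        _ ≤ L k * (4 * L k) := by
            apply mul_le_mul le_rfl (h7.trans (by linarith)) _ (hLpos k).le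
            exact integral_nonneg fun x => sq_nonneg _
        _ = _ := by ring
    have h8 : ∫ x in A (t k), ((f x - c k) ^ 2 - c') ^ 2 ∂μ =
        ∫ x in A (t k), (f x - c k) ^ 4 ∂μ - 2 * c' * I + c' ^ 2 * μ.real (A (t k)) := by
      have e : ∀ x, ((f x - c k) ^ 2 - c') ^ 2 =
          (f x - c k) ^ 4 - 2 * c' * (f x - c k) ^ 2 + c' ^ 2 := fun x => by ring
      simp_rw [e]
      rw [integral_add, integral_sub, integral_const_mul]
      · simp [hI]; ring
      · exact (hint _ (by fun_prop)).integrableOn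
      · exact (hint _ (by fun_prop)).integrableOn
      · exact (hint _ (by fun_prop)).integrableOn
      · exact (hint _ (by fun_prop)).integrableOn
    have h9 : c' ^ 2 * (1 / 2) ≤ c' ^ 2 * μ.real (A (t k)) :=
      mul_le_mul_of_nonneg_left (hM2 k) (sq_nonneg _)
    have h10 : I ^ 2 ≤ L k ^ 2 := pow_le_pow_left₀ hI0 hI1 2
    nlinarith [sq_nonneg (c' - 2 * I)]
  -- differences of the constants
  have hdiff : ∀ k, (c (k + 1) - c k) ^ 2 ≤ 5 * L (k + 1) := by
    intro k
    have hsub : A (t k) ⊆ A (t (k + 1)) := hA _ _ (by rw [hts]; linarith [ht4 k])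
    have h1 : ∫ x in A (t k), (f x - c (k + 1)) ^ 2 ∂μ ≤ L (k + 1) := by
      refine le_trans (setIntegral_mono_set ?_ ?_ ?_) (hc (k + 1))
      · exact (hint _ (by fun_prop)).integrableOn
      · exact Filter.Eventually.of_forall fun x => sq_nonneg _
      · exact hsub.eventuallyLE
    have h2 : (c (k + 1) - c k) ^ 2 * μ.real (A (t k)) ≤
        2 * (∫ x in A (t k), (f x - c k) ^ 2 ∂μ) + 2 * ∫ x in A (t k), (f x - c (k + 1)) ^ 2 ∂μ := by
      have e : (c (k + 1) - c k) ^ 2 * μ.real (A (t k)) =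
          ∫ x in A (t k), (c (k + 1) - c k) ^ 2 ∂μ := by simp [mul_comm]
      rw [e, ← integral_const_mul, ← integral_const_mul, ← integral_add]
      · apply setIntegral_mono
        · exact (hint _ (by fun_prop)).integrableOn
        · exact ((hint _ (by fun_prop)).add (hint _ (by fun_prop))).integrableOn
        · intro x
          show (c (k + 1) - c k) ^ 2 ≤ 2 * (f x - c k) ^ 2 + 2 * (f x - c (k + 1)) ^ 2
          nlinarith [sq_nonneg ((f x - c k) + (f x - c (k + 1)))]
      · exact (hint _ (by fun_prop)).integrableOn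
      · exact (hint _ (by fun_prop)).integrableOn
    have h3 := hc k
    have h4 := hM2 k
    have h5 := hLs k
    nlinarith [sq_nonneg (c (k + 1) - c k)]
  have hc0 : ∀ k, (c k - c 0) ^ 2 ≤ 20 * L k := by
    intro k
    induction k with
    | zero => simp; exact (hLpos 0).le
    | succ k ih =>
      have h1 := hdiff k
      have h2 := hLs k
      nlinarith [sq_nonneg ((c (k + 1) - c k) - (c k - c 0))]
  -- annuli
  have hann : ∀ k, ∫ x in A (t (k + 1)) \ A (t k), (f x - c 0) ^ 2 ∂μ ≤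
      18048 * D * (1 / 2) ^ k := by
    intro k
    set S : Set (E0 n) := A (t (k + 1)) \ A (t k) with hS
    have hSm : MeasurableSet S := (hAm _).diff (hAm _)
    set e : ℝ := Real.exp (-(t k / 4)) with he
    have he0 : 0 < e := Real.exp_pos _
    have hee : Real.exp (-(t k / 2)) = e ^ 2 := by
      rw [he, sq, ← Real.exp_add]; congr 1; ring
    have he1 : e ≤ 1 := Real.exp_le_one_iff.2 (by linarith [ht4 k])
    have hSμ : μ.real S ≤ e ^ 2 := by
      rw [← hee]
      refine le_trans (measureReal_mono ?_) (hMc k)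
      intro x hx; exact hx.2
    set l : ℝ := L (k + 1) with hl
    have hl0 : 0 < l := hLpos _
    have h1 : ∫ x in S, (f x - c (k + 1)) ^ 4 ∂μ ≤ 6 * l ^ 2 := by
      refine le_trans (setIntegral_mono_set ?_ ?_ ?_) (h4 (k + 1))
      · exact (hint _ (by fun_prop)).integrableOn
      · exact Filter.Eventually.of_forall fun x => by positivity
      · exact (sdiff_subset).eventuallyLE
    have h2 : ∫ x in S, (f x - c 0) ^ 2 ∂μ ≤
        (e / l) * (∫ x in S, (f x - c (k + 1)) ^ 4 ∂μ) + (l / e + 2 * (c (k + 1) - c 0) ^ 2) *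
          μ.real S := by
      have e1 : (l / e + 2 * (c (k + 1) - c 0) ^ 2) * μ.real S =
          ∫ x in S, (l / e + 2 * (c (k + 1) - c 0) ^ 2) ∂μ := by simp [mul_comm]
      rw [e1, ← integral_const_mul, ← integral_add]
      · apply setIntegral_mono
        · exact (hint _ (by fun_prop)).integrableOn
        · exact ((hint _ (by fun_prop)).add (hint _ (by fun_prop))).integrableOn
        · intro x
          show (f x - c 0) ^ 2 ≤ e / l * (f x - c (k + 1)) ^ 4 +
            (l / e + 2 * (c (k + 1) - c 0) ^ 2)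
          have h3 : 2 * (f x - c (k + 1)) ^ 2 ≤ e / l * (f x - c (k + 1)) ^ 4 + l / e := by
            have h5 : 0 < e / l := div_pos he0 hl0
            have h6 : l / e = 1 / (e / l) := by field_simp
            rw [h6]
            set a : ℝ := e / l with ha
            set g : ℝ := (f x - c (k + 1)) ^ 2 with hg
            have h7 : (f x - c (k + 1)) ^ 4 = g ^ 2 := by rw [hg]; ring
            rw [h7]
            have h8 : a * g ^ 2 + 1 / a - 2 * g = (a * g - 1) ^ 2 / a := by
              field_simp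
              ring
            have h9 : 0 ≤ (a * g - 1) ^ 2 / a := by positivity
            linarith
          nlinarith [sq_nonneg ((f x - c (k + 1)) - (c (k + 1) - c 0))]
      · exact (hint _ (by fun_prop)).integrableOn
      · exact (hint _ (by fun_prop)).integrableOn
    have h3 : (e / l) * (∫ x in S, (f x - c (k + 1)) ^ 4 ∂μ) ≤ 6 * l * e := by
      calc (e / l) * (∫ x in S, (f x - c (k + 1)) ^ 4 ∂μ) ≤ (e / l) * (6 * l ^ 2) :=
            mul_le_mul_of_nonneg_left h1 (div_pos he0 hl0).le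
        _ = _ := by field_simp
    have h5 : (l / e + 2 * (c (k + 1) - c 0) ^ 2) * μ.real S ≤ 41 * l * e := by
      have h6 := hc0 (k + 1)
      calc (l / e + 2 * (c (k + 1) - c 0) ^ 2) * μ.real S
          ≤ (l / e + 2 * (20 * l)) * e ^ 2 := by
            apply mul_le_mul _ hSμ measureReal_nonneg (by positivity)
            linarith
        _ = l * e + 40 * l * e * e := by field_simp; ring
        _ ≤ l * e + 40 * l * e * 1 := by
            have : 40 * l * e * e ≤ 40 * l * e * 1 :=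
              mul_le_mul_of_nonneg_left he1 (by positivity)
            linarith
        _ = _ := by ring
    have h6 : ∫ x in S, (f x - c 0) ^ 2 ∂μ ≤ 47 * l * e := by linarith
    have h7 : l * e = 64 * D * ((4:ℝ) ^ k * Real.exp (-(2 ^ k))) := by
      have h8 : l = 64 * D * 4 ^ k := by
        rw [hl, hLs]
        simp only [hL, ht]
        have : ((4:ℝ) * 2 ^ k) ^ 2 = 16 * 4 ^ k := by
          rw [mul_pow, ← pow_mul, mul_comm k 2, pow_mul]; norm_num
        rw [this]; ring
      have h9 : e = Real.exp (-(2 ^ k)) := by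
        rw [he]; congr 1; simp only [ht]; ring
      rw [h8, h9]; ring
    have h8 := four_pow_exp k
    calc ∫ x in S, (f x - c 0) ^ 2 ∂μ ≤ 47 * l * e := h6
      _ = 47 * (64 * D * ((4:ℝ) ^ k * Real.exp (-(2 ^ k)))) := by rw [mul_assoc, h7]
      _ ≤ 47 * (64 * D * (6 * (1 / 2) ^ k)) := by
          apply mul_le_mul_of_nonneg_left _ (by norm_num)
          exact mul_le_mul_of_nonneg_left h8 (by positivity)
      _ = _ := by ring
  have hsum : ∀ k, ∫ x in A (t k), (f x - c 0) ^ 2 ∂μ ≤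
      16 * D + 36096 * D * (1 - (1 / 2) ^ k) := by
    intro k
    induction k with
    | zero =>
      have h1 := hc 0
      have h2 : L 0 = 16 * D := by simp only [hL, ht]; norm_num; ring
      rw [h2] at h1
      simpa using h1
    | succ k ih =>
      have hsub : A (t k) ⊆ A (t (k + 1)) := hA _ _ (by rw [hts]; linarith [ht4 k])
      have h1 : ∫ x in A (t (k + 1)), (f x - c 0) ^ 2 ∂μ =
          (∫ x in A (t k), (f x - c 0) ^ 2 ∂μ) +
            ∫ x in A (t (k + 1)) \ A (t k), (f x - c 0) ^ 2 ∂μ := by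
        rw [← setIntegral_union disjoint_sdiff_right ((hAm _).diff (hAm _))
          (hint _ (by fun_prop)).integrableOn (hint _ (by fun_prop)).integrableOn,
          union_sdiff_cancel hsub]
      rw [h1]
      have h2 := hann k
      have h3 : ((1:ℝ) / 2) ^ (k + 1) = (1 / 2) ^ k / 2 := by rw [pow_succ]; ring
      rw [h3]
      linarith
  -- the limit
  have hfin : ∫ x, (f x - c 0) ^ 2 ∂μ ≤ 40000 * D := by
    have hgc : Continuous fun x => (f x - c 0) ^ 2 := by fun_prop
    obtain ⟨B, hB⟩ := (isCompact_closedBall (0 : E0 n) R).exists_bound_of_continuousOn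
      hgc.continuousOn
    have hBae : ∀ᵐ x ∂μ, (f x - c 0) ^ 2 ≤ |B| := by
      have : ∀ᵐ x ∂μ, x ∈ Metric.closedBall (0 : E0 n) R := mem_ae_iff.2 hR
      filter_upwards [this] with x hx
      have := hB x hx
      rw [Real.norm_eq_abs, abs_of_nonneg (sq_nonneg _)] at this
      exact this.trans (le_abs_self B)
    obtain ⟨k, hk⟩ := pow_unbounded_of_one_lt (|B| / D) (by norm_num : (1:ℝ) < 2)
    have h1 : ∫ x in (A (t k))ᶜ, (f x - c 0) ^ 2 ∂μ ≤ |B| * Real.exp (-(t k / 2)) := by
      calc ∫ x in (A (t k))ᶜ, (f x - c 0) ^ 2 ∂μ ≤ ∫ x in (A (t k))ᶜ, |B| ∂μ := by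
            apply setIntegral_mono_ae (hint _ hgc).integrableOn
              (hint _ continuous_const).integrableOn hBae
        _ = |B| * μ.real (A (t k))ᶜ := by simp [mul_comm]
        _ ≤ _ := mul_le_mul_of_nonneg_left (hMc k) (abs_nonneg _)
    have h2 : |B| * Real.exp (-(t k / 2)) ≤ D := by
      have h3 : (2:ℝ) ^ k ≤ Real.exp (t k / 2) := by
        have h4 : t k / 2 + 1 ≤ Real.exp (t k / 2) := Real.add_one_le_exp _
        have h5 : t k / 2 = 2 * 2 ^ k := by simp only [ht]; ring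
        have h6 : (0:ℝ) < 2 ^ k := by positivity
        linarith
      rw [Real.exp_neg, ← div_eq_mul_inv, div_le_iff₀ (Real.exp_pos _)]
      have h7 : |B| < 2 ^ k * D := by rwa [div_lt_iff₀ hD] at hk
      nlinarith
    have h3 := integral_add_compl (μ := μ) (hAm (t k)) (hint _ hgc)
    have h4 := hsum k
    have h5 : (0:ℝ) ≤ (1 / 2) ^ k := by positivity
    have h6 : 36096 * D * (1 - (1 / 2) ^ k) ≤ 36096 * D := by nlinarith
    linarith
  have hvar : ∫ x, (f x - c 0) ^ 2 ∂μ = ∫ x, f x ^ 2 ∂μ - 2 * c 0 * (∫ x, f x ∂μ) + c 0 ^ 2 := by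
    have e : ∀ x, (f x - c 0) ^ 2 = f x ^ 2 - 2 * c 0 * f x + c 0 ^ 2 := fun x => by ring
    simp_rw [e]
    rw [integral_add, integral_sub, integral_const_mul]
    · simp
    · exact hint _ (by fun_prop)
    · exact hint _ (by fun_prop)
    · exact hint _ (by fun_prop)
    · exact hint _ (by fun_prop)
  nlinarith [sq_nonneg ((∫ x, f x ∂μ) - c 0)]

/-- **Part SX-MULTI** -/
theorem multi : Pool.Agent.W586.SX.S_MULTI := by
  refine ⟨40000, by norm_num, ?_⟩
  intro n μ _ hR A hAm hA hT D hD hP f hf hf1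
  exact multi0 μ hR A hAm hA hT D hD hP f hf hf1

end Pool.Agent.W865.SX
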